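import Pool.Agent.Helper60.GM.Defs

/-!
# Project GM, block D3d: measurability, volume and neighbourhoods of the region, injectivity
-/

open MeasureTheory Real Set Filter Topology

set_option autoImplicit false

namespace Pool.Agent.Helper60.GM

open Pool.Agent.Helper22.AE
open Pool.Agent.Helper92.GC (dt tp Tq uu tt arc dd sqa m6)
open Pool.Agent.Helper92.DT (m12 IsMul12)
open Pool.Agent.Helper60.LT (Fr Tf xf yf df vf fr ac co Cut BB PP)
open Pool.Agent.Helper60.QL (nm Cone)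
open Pool.Agent.Helper60.RT (R2 cn FR sp Pr prs ctr lf2 ln2)

/-- the shear moves by at least `σ` times the distance -/
private theorem gap33 {F : Fam} {B₀ σ t₀ a b : ℝ} (hF : F.Ok B₀) (ht : |t₀| ≤ 12) (ha : -1 ≤ a) (hb : b ≤ 2)
    (hJ : ∀ v ∈ Icc a b, σ ≤ |F.J v t₀|) {s s' : ℝ} (hs : s ∈ Icc a b) (hs' : s' ∈ Icc a b) (h : s < s') :
    σ * (s' - s) ≤ |F.x s' t₀ - F.x s t₀| := by
  have hd : ∀ v ∈ Icc s s', HasDerivAt (fun s => F.x s t₀) (F.J v t₀) v := fun v hv =>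
    hF.hx v ⟨ha.trans (hs.1.trans hv.1), (hv.2.trans hs'.2).trans hb⟩ t₀ ht
  obtain ⟨ξ, hξ, hξe⟩ := exists_hasDerivAt_eq_slope (fun s => F.x s t₀) (fun v => F.J v t₀) h
    (fun v hv => (hd v hv).continuousAt.continuousWithinAt) (fun v hv => hd v ⟨hv.1.le, hv.2.le⟩)
  have h0 : 0 < s' - s := sub_pos.2 h
  have h1 := hJ ξ ⟨hs.1.trans hξ.1.le, hξ.2.le.trans hs'.2⟩
  have h2 : F.x s' t₀ - F.x s t₀ = F.J ξ t₀ * (s' - s) := by
    rw [hξe]
    field_simp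
  rw [h2, abs_mul, abs_of_pos h0]
  exact mul_le_mul_of_nonneg_right h1 h0.le

/-- D3d: measurability, volume, neighbourhoods of the region -/
theorem orG {B₀ B : ℝ} (hB₀ : 1 ≤ B₀) (hB : 1 ≤ B) : ∃ C c B' : ℝ, 1 ≤ C ∧ 0 < c ∧ B ≤ B' ∧ ∀ (F : Fam), F.Ok B₀ → ∀ (X σ t₀ s₀ l : ℝ), 0 < X → |t₀| ≤ 3 → 0 < σ → In s₀ (2 * l) →
    (∀ v ∈ Icc (s₀ - 2 * l) (s₀ + 2 * l), σ ≤ |F.J v t₀|) → MeasurableSet (OR F t₀ s₀ l B X) ∧ volume (OR F t₀ s₀ l B X) ≤ ENNReal.ofReal (C * X ^ 2) ∧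
      (∀ z ∈ Icc (X / B) (B * X) ×ˢ Icc (s₀ - l) (s₀ + l), Metric.closedBall (Ar F t₀ z) (c * (σ * l) * X) ⊆ OR F t₀ s₀ (2 * l) B' X) ∧
      InjOn (Ar F t₀) (Ioi 0 ×ˢ Icc (s₀ - 2 * l) (s₀ + 2 * l)) := by
  have hBB : 1 ≤ B * B₀ := by nlinarith
  refine ⟨4 * (B * B₀) ^ 2, 1 / (8 * (B * B₀ ^ 3)), 2 * (B * B₀ ^ 2), ?_, by positivity, ?_, ?_⟩
  · nlinarith
  · nlinarith [mul_le_mul_of_nonneg_left (one_le_pow₀ hB₀ (n := 2)) (zero_le_one.trans hB)]
  intro F hF X σ t₀ s₀ l hX ht hσ hin hJ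
  have ht' : |t₀| ≤ 12 := by linarith
  obtain ⟨hl2, hin1, hin2⟩ := hin
  have hl : 0 < l := by linarith
  have hl1 : l ≤ 1 := by linarith
  have hmem : ∀ s ∈ Icc (s₀ - 2 * l) (s₀ + 2 * l), s ∈ Icc (-1 : ℝ) 2 := fun s hs => ⟨hin1.trans hs.1, hs.2.trans hin2⟩
  have hsub : Icc (s₀ - l) (s₀ + l) ⊆ Icc (s₀ - 2 * l) (s₀ + 2 * l) := Icc_subset_Icc (by linarith) (by linarith)
  have hp0 : ∀ s ∈ Icc (s₀ - 2 * l) (s₀ + 2 * l), 0 < F.p s t₀ := by
    intro s hs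
    by_contra hcon
    push Not at hcon
    have h1 := hF.p_lo s (hmem s hs) t₀ ht'
    have : B₀ * F.p s t₀ ≤ 0 := mul_nonpos_of_nonneg_of_nonpos (by linarith) hcon
    linarith
  have hp1 : ∀ s ∈ Icc (s₀ - 2 * l) (s₀ + 2 * l), F.p s t₀ ≤ B₀ := fun s hs =>
    (le_abs_self _).trans (hF.bd s (hmem s hs) t₀ ht').2.2.1
  have hpx : ∀ s ∈ Icc (s₀ - 2 * l) (s₀ + 2 * l), |F.x s t₀| * F.p s t₀ ≤ B₀ := by
    intro s hs
    have h1 := hp0 s hs
    have h2 := (hF.bd s (hmem s hs) t₀ ht').2.2.2.1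
    have h3 : |F.x s t₀| * F.p s t₀ = |F.q3 s t₀| / 3 := by
      unfold Fam.x
      rw [abs_div, abs_neg, abs_of_pos (by positivity : 0 < 3 * F.p s t₀)]
      field_simp
    rw [h3]
    linarith [abs_nonneg (F.q3 s t₀)]
  have hxc : ContinuousOn (fun s => F.x s t₀) (Icc (s₀ - 2 * l) (s₀ + 2 * l)) := fun s hs =>
    (hF.hx s (hmem s hs) t₀ ht').continuousAt.continuousWithinAt
  have hpc : ContinuousOn (fun s => F.p s t₀) (Icc (s₀ - 2 * l) (s₀ + 2 * l)) := fun s hs =>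
    (hF.hps s (hmem s hs) t₀ ht').continuousAt.continuousWithinAt
  have hxi : InjOn (fun s => F.x s t₀) (Icc (s₀ - 2 * l) (s₀ + 2 * l)) := by
    intro s hs s' hs' h
    by_contra hne
    rcases lt_or_gt_of_ne hne with h1 | h1
    · have h2 := gap33 hF ht' hin1 hin2 hJ hs hs' h1
      simp only at h
      rw [h, sub_self, abs_zero] at h2
      nlinarith
    · have h2 := gap33 hF ht' hin1 hin2 hJ hs' hs h1
      simp only at h
      rw [h, sub_self, abs_zero] at h2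
      nlinarith
  refine ⟨?_, ?_, ?_, ?_⟩
  · -- measurable
    have h1 : ContinuousOn (Ar F t₀) (Icc (X / B) (B * X) ×ˢ Icc (s₀ - l) (s₀ + l)) := by
      have hp2 : ContinuousOn (fun z : R2 => F.p z.2 t₀) (Icc (X / B) (B * X) ×ˢ Icc (s₀ - l) (s₀ + l)) :=
        hpc.comp continuousOn_snd fun z hz => hsub hz.2
      have hx2 : ContinuousOn (fun z : R2 => F.x z.2 t₀) (Icc (X / B) (B * X) ×ˢ Icc (s₀ - l) (s₀ + l)) :=
        hxc.comp continuousOn_snd fun z hz => hsub hz.2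
      have h2 : ContinuousOn (fun z : R2 => z.1 * F.p z.2 t₀ / 2) (Icc (X / B) (B * X) ×ˢ Icc (s₀ - l) (s₀ + l)) :=
        (continuousOn_fst.mul hp2).div_const 2
      exact h2.prodMk (hx2.mul h2).neg
    exact ((isCompact_Icc.prod isCompact_Icc).image_of_continuousOn h1).measurableSet
  · -- volume
    have hsubs : OR F t₀ s₀ l B X ⊆ Icc (-(B * B₀ * X)) (B * B₀ * X) ×ˢ Icc (-(B * B₀ * X)) (B * B₀ * X) := by
      rintro A ⟨z, ⟨hz1, hz2⟩, rfl⟩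
      have hs := hsub hz2
      have hp := hp0 z.2 hs
      have hr0 : 0 ≤ z.1 := le_trans (by positivity) hz1.1
      have h1 : z.1 * F.p z.2 t₀ ≤ B * X * B₀ := mul_le_mul hz1.2 (hp1 z.2 hs) hp.le (by positivity)
      have h2 : |F.x z.2 t₀| * (z.1 * F.p z.2 t₀) ≤ B * X * B₀ := by
        calc |F.x z.2 t₀| * (z.1 * F.p z.2 t₀) = z.1 * (|F.x z.2 t₀| * F.p z.2 t₀) := by ring
          _ ≤ B * X * B₀ := mul_le_mul hz1.2 (hpx z.2 hs) (by positivity) (by positivity)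
      have h0 : 0 ≤ z.1 * F.p z.2 t₀ := mul_nonneg hr0 hp.le
      have h3 : |F.x z.2 t₀ * (z.1 * F.p z.2 t₀ / 2)| ≤ B * B₀ * X := by
        rw [abs_mul, abs_of_nonneg (by linarith : 0 ≤ z.1 * F.p z.2 t₀ / 2)]
        have : 0 ≤ |F.x z.2 t₀| * (z.1 * F.p z.2 t₀) := by positivity
        nlinarith
      have h4 := abs_le.1 h3
      refine ⟨⟨?_, ?_⟩, ?_, ?_⟩
      · change -(B * B₀ * X) ≤ z.1 * F.p z.2 t₀ / 2
        have : 0 ≤ B * B₀ * X := by positivity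
        linarith
      · change z.1 * F.p z.2 t₀ / 2 ≤ B * B₀ * X
        nlinarith
      · change -(B * B₀ * X) ≤ -(F.x z.2 t₀ * (z.1 * F.p z.2 t₀ / 2))
        linarith [h4.2]
      · change -(F.x z.2 t₀ * (z.1 * F.p z.2 t₀ / 2)) ≤ B * B₀ * X
        linarith [h4.1]
    refine (measure_mono hsubs).trans ?_
    rw [Measure.volume_eq_prod, Measure.prod_prod, Real.volume_Icc, ← ENNReal.ofReal_mul (by
      have : 0 ≤ B * B₀ * X := by positivity
      linarith)]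
    refine ENNReal.ofReal_le_ofReal (le_of_eq ?_)
    ring
  · -- neighbourhoods
    rintro z ⟨hz1, hz2⟩ A hA
    have hs := hsub hz2
    have hp := hp0 z.2 hs
    have hr0 : 0 < z.1 := lt_of_lt_of_le (by positivity) hz1.1
    obtain ⟨ρ, hρ⟩ : ∃ ρ, ρ = 1 / (8 * (B * B₀ ^ 3)) * (σ * l) * X := ⟨_, rfl⟩
    rw [← hρ] at hA
    have hρ0 : 0 < ρ := by rw [hρ]; positivity
    have hd1 : |A.1 - z.1 * F.p z.2 t₀ / 2| ≤ ρ := by
      have := (le_max_left (dist A.1 (Ar F t₀ z).1) (dist A.2 (Ar F t₀ z).2)).trans (Metric.mem_closedBall.1 hA)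
      rwa [Real.dist_eq] at this
    have hd2 : |A.2 + F.x z.2 t₀ * (z.1 * F.p z.2 t₀ / 2)| ≤ ρ := by
      have := (le_max_right (dist A.1 (Ar F t₀ z).1) (dist A.2 (Ar F t₀ z).2)).trans (Metric.mem_closedBall.1 hA)
      rw [Real.dist_eq] at this
      have h2 : A.2 - (Ar F t₀ z).2 = A.2 + F.x z.2 t₀ * (z.1 * F.p z.2 t₀ / 2) := by
        change A.2 - -(F.x z.2 t₀ * (z.1 * F.p z.2 t₀ / 2)) = _
        ring
      rwa [h2] at this
    -- sizes
    have hσB : σ ≤ B₀ := (hJ z.2 hs).trans (hF.bd z.2 (hmem _ hs) t₀ ht').2.2.2.2.2.2.1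
    have hσl : σ * l ≤ B₀ := by nlinarith
    have hp_lo := hF.p_lo z.2 (hmem _ hs) t₀ ht'
    have hA2lo : X ≤ 2 * (B * B₀) * (z.1 * F.p z.2 t₀ / 2) := by
      have h1 : X ≤ B * z.1 := by
        have := hz1.1
        rw [div_le_iff₀ (by linarith)] at this
        linarith
      calc X ≤ B * z.1 := h1
        _ ≤ B * z.1 * (B₀ * F.p z.2 t₀) := le_mul_of_one_le_right (by positivity) hp_lo
        _ = 2 * (B * B₀) * (z.1 * F.p z.2 t₀ / 2) := by ring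
    have hρX : 8 * (B * B₀ ^ 2) * ρ ≤ X := by
      have e : 8 * (B * B₀ ^ 2) * ρ = σ * l / B₀ * X := by
        rw [hρ]
        field_simp
      rw [e]
      have : σ * l / B₀ ≤ 1 := by rw [div_le_one (by linarith)]; exact hσl
      nlinarith
    have hρX' : 8 * (B * B₀) * ρ ≤ X := by
      refine le_trans ?_ hρX
      have : B * B₀ ≤ B * B₀ ^ 2 := by nlinarith
      nlinarith
    obtain ⟨h11, h12⟩ := abs_le.1 hd1
    have ha_lo : X ≤ 4 * (B * B₀) * A.1 := by nlinarith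
    have ha0 : 0 < A.1 := by
      by_contra hcon
      push Not at hcon
      have : 4 * (B * B₀) * A.1 ≤ 0 := mul_nonpos_of_nonneg_of_nonpos (by positivity) hcon
      linarith
    have ha_hi : A.1 ≤ B * B₀ * X := by
      have h1 : z.1 * F.p z.2 t₀ ≤ B * X * B₀ := mul_le_mul hz1.2 (hp1 z.2 hs) hp.le (by positivity)
      have h2 : 8 * ρ ≤ X := by nlinarith
      have h3 : X ≤ B * B₀ * X := le_mul_of_one_le_left hX.le hBB
      nlinarith
    -- the shear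
    have hxb : |F.x z.2 t₀| ≤ B₀ ^ 2 := by
      have h1 := hpx z.2 hs
      have h2 : |F.x z.2 t₀| ≤ |F.x z.2 t₀| * (B₀ * F.p z.2 t₀) := le_mul_of_one_le_right (abs_nonneg _) hp_lo
      nlinarith
    have hdx : |-(A.2 / A.1) - F.x z.2 t₀| ≤ σ * l := by
      have e1 : -(A.2 / A.1) - F.x z.2 t₀ = -((A.2 + F.x z.2 t₀ * (z.1 * F.p z.2 t₀ / 2)) + F.x z.2 t₀ * (A.1 - z.1 * F.p z.2 t₀ / 2)) / A.1 := by
        field_simp
        ring
      rw [e1, abs_div, abs_neg, abs_of_pos ha0, div_le_iff₀ ha0]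
      have h1 : |(A.2 + F.x z.2 t₀ * (z.1 * F.p z.2 t₀ / 2)) + F.x z.2 t₀ * (A.1 - z.1 * F.p z.2 t₀ / 2)| ≤ ρ + B₀ ^ 2 * ρ := by
        refine (abs_add_le _ _).trans (add_le_add hd2 ?_)
        rw [abs_mul]
        exact mul_le_mul hxb hd1 (abs_nonneg _) (by positivity)
      refine h1.trans ?_
      have h2 : ρ + B₀ ^ 2 * ρ ≤ 2 * B₀ ^ 2 * ρ := by nlinarith [one_le_pow₀ hB₀ (n := 2)]
      refine h2.trans ?_
      have h3 : 2 * B₀ ^ 2 * ρ = σ * l * (X / (4 * (B * B₀))) := by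
        rw [hρ]
        field_simp
        ring
      rw [h3]
      refine mul_le_mul_of_nonneg_left ?_ (by positivity)
      rw [div_le_iff₀ (by positivity)]
      linarith
    -- the point
    obtain ⟨s', hs', hs'e⟩ : ∃ s' ∈ Icc (z.2 - l) (z.2 + l), F.x s' t₀ = -(A.2 / A.1) := by
      have hI : Icc (z.2 - l) (z.2 + l) ⊆ Icc (s₀ - 2 * l) (s₀ + 2 * l) :=
        Icc_subset_Icc (by linarith [hz2.1]) (by linarith [hz2.2])
      have m1 : z.2 - l ∈ Icc (s₀ - 2 * l) (s₀ + 2 * l) := hI ⟨le_rfl, by linarith⟩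
      have m2 : z.2 + l ∈ Icc (s₀ - 2 * l) (s₀ + 2 * l) := hI ⟨by linarith, le_rfl⟩
      have g1 := gap33 hF ht' hin1 hin2 hJ m1 hs (by linarith)
      have g2 := gap33 hF ht' hin1 hin2 hJ hs m2 (by linarith)
      obtain ⟨b1, b2⟩ := abs_le.1 hdx
      rcases hxc.strictMonoOn_of_injOn_Icc' (by linarith) hxi with hm | hm
      · have k1 := hm m1 hs (by linarith)
        have k2 := hm hs m2 (by linarith)
        simp only at k1 k2
        rw [abs_of_pos (by linarith)] at g1 g2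
        obtain ⟨s', h1, h2⟩ := intermediate_value_Icc (by linarith : z.2 - l ≤ z.2 + l) (hxc.mono hI)
          (show -(A.2 / A.1) ∈ Icc (F.x (z.2 - l) t₀) (F.x (z.2 + l) t₀) from ⟨by linarith, by linarith⟩)
        exact ⟨s', h1, h2⟩
      · have k1 := hm m1 hs (by linarith)
        have k2 := hm hs m2 (by linarith)
        simp only at k1 k2
        rw [abs_of_neg (by linarith)] at g1 g2
        obtain ⟨s', h1, h2⟩ := intermediate_value_Icc' (by linarith : z.2 - l ≤ z.2 + l) (hxc.mono hI)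
          (show -(A.2 / A.1) ∈ Icc (F.x (z.2 + l) t₀) (F.x (z.2 - l) t₀) from ⟨by linarith, by linarith⟩)
        exact ⟨s', h1, h2⟩
    have hs'2 : s' ∈ Icc (s₀ - 2 * l) (s₀ + 2 * l) := ⟨by linarith [hz2.1, hs'.1], by linarith [hz2.2, hs'.2]⟩
    have hp' := hp0 s' hs'2
    have hp'lo := hF.p_lo s' (hmem _ hs'2) t₀ ht'
    have hp'hi := hp1 s' hs'2
    refine ⟨(2 * A.1 / F.p s' t₀, s'), ⟨⟨?_, ?_⟩, hs'2⟩, ?_⟩
    · change X / (2 * (B * B₀ ^ 2)) ≤ 2 * A.1 / F.p s' t₀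
      rw [div_le_div_iff₀ (by positivity) hp']
      have : X * F.p s' t₀ ≤ X * B₀ := mul_le_mul_of_nonneg_left hp'hi hX.le
      nlinarith
    · change 2 * A.1 / F.p s' t₀ ≤ 2 * (B * B₀ ^ 2) * X
      rw [div_le_iff₀ hp']
      have h1 : B * B₀ * X * 1 ≤ B * B₀ * X * (B₀ * F.p s' t₀) := mul_le_mul_of_nonneg_left hp'lo (by positivity)
      nlinarith
    · have e2 : 2 * A.1 / F.p s' t₀ * F.p s' t₀ / 2 = A.1 := by field_simp
      change (2 * A.1 / F.p s' t₀ * F.p s' t₀ / 2, -(F.x s' t₀ * (2 * A.1 / F.p s' t₀ * F.p s' t₀ / 2))) = A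
      rw [e2, hs'e]
      ext
      · rfl
      · change -(-(A.2 / A.1) * A.1) = A.2
        field_simp
  · -- injectivity
    rintro z ⟨hz1, hz2⟩ z' ⟨hz1', hz2'⟩ h
    have h1 : z.1 * F.p z.2 t₀ / 2 = z'.1 * F.p z'.2 t₀ / 2 := congrArg Prod.fst h
    have h2 : -(F.x z.2 t₀ * (z.1 * F.p z.2 t₀ / 2)) = -(F.x z'.2 t₀ * (z'.1 * F.p z'.2 t₀ / 2)) := congrArg Prod.snd h
    have hz10 : 0 < z.1 := hz1
    have hz10' : 0 < z'.1 := hz1'
    have hpz := hp0 z.2 hz2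
    have hpz' := hp0 z'.2 hz2'
    rw [← h1] at h2
    have h3 : 0 < z.1 * F.p z.2 t₀ / 2 := by positivity
    have h4 : F.x z.2 t₀ = F.x z'.2 t₀ := mul_right_cancel₀ h3.ne' (neg_injective h2)
    have h5 : z.2 = z'.2 := hxi hz2 hz2' h4
    rw [← h5] at h1
    have h6 : z.1 = z'.1 := by
      have : z.1 * F.p z.2 t₀ = z'.1 * F.p z.2 t₀ := by linarith
      exact mul_right_cancel₀ hpz.ne' this
    exact Prod.ext h6 h5

end Pool.Agent.Helper60.GM
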